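import Mathlib

set_option autoImplicit false

open Set Metric Pointwise MeasureTheory Filter Topology

namespace Pool.Agent.Results.MP_a80f1a_gt.Counter

/-- `ℝ³` with Lebesgue measure. -/
abbrev E := (ℝ × ℝ) × ℝ

noncomputable def quot (K A : Set E) (δ : ℝ) : EReal :=
  ((volume.real (A + δ • K) - volume.real A) / δ : ℝ)

/-- Lower `K`-surface area. -/
noncomputable def lower (K A : Set E) : EReal := liminf (quot K A) (𝓝[>] 0)

/-- Upper `K`-surface area. -/
noncomputable def upper (K A : Set E) : EReal := limsup (quot K A) (𝓝[>] 0)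

def B (r : ℝ) : Set E := {w | ‖w.1‖ + |w.2| ≤ r}

noncomputable def A : Finset E := {0, ((0, 0), 1), ((1, 1), 0), ((1, -1), 0), ((-1, 1), 0), ((-1, -1), 0)}

noncomputable def h (p : ℝ × ℝ) : ℝ := max (1 - ‖p‖) (1 - max (abs (|p.1| - 1)) (abs (|p.2| - 1)))

lemma smul_B {r : ℝ} (hr : 0 < r) : r • B 1 = B r := by
  ext w
  rw [mem_smul_set_iff_inv_smul_mem₀ hr.ne']
  simp only [B, mem_ofPred_eq, Prod.smul_fst, Prod.smul_snd, norm_smul, smul_eq_mul, abs_mul,
    Real.norm_eq_abs, abs_of_pos (inv_pos.2 hr), ← mul_add]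
  rw [inv_mul_le_iff₀ hr, mul_one]

lemma conv : Convex ℝ (B 1) := fun x hx y hy a b ha hb e => by
  have := norm_add_le (a • x.1) (b • y.1)
  have := abs_add_le (a * x.2) (b * y.2)
  simp only [B, mem_ofPred_eq, Prod.fst_add, Prod.snd_add, Prod.smul_fst, Prod.smul_snd,
    smul_eq_mul, norm_smul, abs_mul, Real.norm_eq_abs, abs_of_nonneg ha, abs_of_nonneg hb] at *
  nlinarith

lemma bdd (r : ℝ) : Bornology.IsBounded (B r) :=
  (isBounded_closedBall (x := 0) (r := r)).subset fun w hw => by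
    rw [mem_closedBall_zero_iff, Prod.norm_def, max_le_iff, Real.norm_eq_abs]
    exact ⟨by linarith [abs_nonneg w.2, show _ ≤ r from hw],
      by linarith [norm_nonneg w.1, show _ ≤ r from hw]⟩

lemma add_B {r s : ℝ} (hr : 0 < r) (hs : 0 < s) : B r + s • B 1 = B (r + s) := by
  rw [← smul_B hr, ← conv.add_smul hr.le hs.le, smul_B (by positivity)]

lemma mem_U {r : ℝ} {w : E} : w ∈ (A : Set E) + B r ↔ ∃ c ∈ A, ‖w.1 - c.1‖ + |w.2 - c.2| ≤ r :=
  ⟨fun ⟨c, hc, x, hx, e⟩ => ⟨c, hc, by simpa [← e, B] using hx⟩,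
    fun ⟨c, hc, hx⟩ => ⟨c, hc, w - c, hx, by simp⟩⟩

lemma F1 {w : E} (hw : w ∈ (A : Set E) + B 1) : |w.2| ≤ h w.1 ∨ ‖w.1‖ + |w.2 - 1| ≤ 1 := by
  obtain ⟨c, hc, e⟩ := mem_U.1 hw
  have k : ∀ a b : ℝ, |a| = 1 → |b| = 1 → ‖w.1 - (a, b)‖ + |w.2 - 0| ≤ 1 → |w.2| ≤ h w.1 :=
    fun a b ha hb e => le_max_of_le_right (by
      have := max_le_max (ha ▸ abs_abs_sub_abs_le_abs_sub w.1.1 a)
        (hb ▸ abs_abs_sub_abs_le_abs_sub w.1.2 b)
      rw [sub_zero] at e
      linarith [show ‖w.1 - (a, b)‖ = max |w.1.1 - a| |w.1.2 - b| from rfl])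
  simp only [A, Finset.mem_insert, Finset.mem_singleton] at hc
  rcases hc with rfl | rfl | rfl | rfl | rfl | rfl
  · exact .inl (le_max_of_le_left (by simp at e; linarith))
  · exact .inr (by simpa [Prod.mk_zero_zero] using e)
  all_goals exact .inl (k _ _ (by simp) (by simp) e)

lemma F2 {w : E} {δ : ℝ} (hw : |w.2| ≤ h w.1 + δ) : w ∈ (A : Set E) + B (1 + δ) := by
  rcases le_max_iff.1 (sub_le_iff_le_add.2 hw) with e | e
  · exact mem_U.2 ⟨0, by simp [A], by simp; linarith⟩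
  have k : ∀ x : ℝ, ∃ a, (a = 1 ∨ a = -1) ∧ |x - a| = abs (|x| - 1) := fun x => by
    rcases le_total 0 x with t | t
    · exact ⟨1, .inl rfl, by rw [abs_of_nonneg t]⟩
    · exact ⟨-1, .inr rfl, by rw [abs_of_nonpos t, ← abs_neg]; ring_nf⟩
  obtain ⟨a, ha, p⟩ := k w.1.1
  obtain ⟨b, hb, q⟩ := k w.1.2
  refine mem_U.2 ⟨((a, b), 0), by rcases ha with rfl | rfl <;> rcases hb with rfl | rfl <;> simp [A],
    ?_⟩
  rw [← p, ← q] at e
  rw [sub_zero]
  linarith [show ‖w.1 - (a, b)‖ = max |w.1.1 - a| |w.1.2 - b| from rfl]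

lemma h_nonneg {p : ℝ × ℝ} (hp : p ∈ closedBall (0 : ℝ × ℝ) 2) : 0 ≤ h p := by
  rw [mem_closedBall_zero_iff, Prod.norm_def, max_le_iff, Real.norm_eq_abs, Real.norm_eq_abs] at hp
  refine le_max_of_le_right (sub_nonneg.2 (max_le ?_ ?_)) <;> rw [abs_le] <;> constructor <;>
    linarith [hp.1, hp.2, abs_nonneg p.1, abs_nonneg p.2]

lemma h_le (p : ℝ × ℝ) : h p ≤ 1 := max_le (by simp) (by simp)

def Rg (f : ℝ × ℝ → ℝ) (s : Set (ℝ × ℝ)) (a b : ℝ) : Set E :=
  {w | w.1 ∈ s ∧ f w.1 + a < w.2 ∧ w.2 < f w.1 + b}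

lemma reg {f : ℝ × ℝ → ℝ} (hf : Measurable f) {s : Set (ℝ × ℝ)} (hs : MeasurableSet s) (a b : ℝ) :
    MeasurableSet (Rg f s a b) ∧ volume (Rg f s a b) = ENNReal.ofReal (b - a) * volume s :=
  ⟨measurableSet_regionBetween (hf.add_const a) (hf.add_const b) hs, by
    refine (volume_regionBetween_eq_lintegral' (hf.add_const a) (hf.add_const b) hs).trans ?_
    simp⟩

lemma volQ {r : ℝ} (hr : 0 ≤ r) :
    volume (closedBall (0 : ℝ × ℝ) r) = ENNReal.ofReal (2 * r * (2 * r)) := by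
  rw [← Prod.mk_zero_zero, ← closedBall_prod_same, Measure.volume_eq_prod, Measure.prod_prod,
    Real.volume_closedBall, ← ENNReal.ofReal_mul (by positivity)]

lemma low {δ : ℝ} (h0 : 0 < δ) (h1 : δ ≤ 1 / 5) :
    ((643 / 20 : ℝ) : EReal) ≤ quot (B 1) (A + B 1) δ := by
  have mh : Measurable h := by unfold h; fun_prop
  let t : ℝ × ℝ → ℝ := fun p => if ‖p‖ ≤ 1 then 2 - ‖p‖ else h p
  have mt : Measurable t := Measurable.ite (measurableSet_le (by fun_prop) (by fun_prop))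
    (by fun_prop) mh
  let G : Set (ℝ × ℝ) := Icc (7 / 10) 1 ×ˢ Icc 0 (1 / 2)
  have hG : ∀ p ∈ G, h p ≤ 1 / 2 ∧ 7 / 10 ≤ ‖p‖ ∧ ‖p‖ ≤ 1 := fun p ⟨⟨a, b⟩, c, d⟩ => by
    have e : ‖p‖ = max p.1 p.2 := by
      rw [Prod.norm_def, Real.norm_of_nonneg (by linarith), Real.norm_of_nonneg c]
    have := le_max_left p.1 p.2
    refine ⟨max_le (by linarith) ?_, by linarith, e ▸ max_le b (by linarith)⟩
    linarith [le_max_right (abs (|p.1| - 1)) (abs (|p.2| - 1)), neg_abs_le (|p.2| - 1),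
      abs_of_nonneg c]
  obtain ⟨m1, v1⟩ := reg mh.neg (measurableSet_closedBall (x := 0) (ε := 2)) (-δ) 0
  obtain ⟨m2, v2⟩ := reg mt (measurableSet_closedBall (x := 0) (ε := 2)) 0 δ
  obtain ⟨m3, v3⟩ := reg mh (s := G) (measurableSet_Icc.prod measurableSet_Icc) 0 δ
  set R1 := Rg (-h) _ _ _
  set R2 := Rg t _ _ _
  set R3 := Rg h _ _ _
  rw [volQ zero_le_two] at v1 v2
  rw [Measure.volume_eq_prod ℝ, Measure.prod_prod, Real.volume_Icc, Real.volume_Icc] at v3
  have fin : ∀ r, volume ((A : Set E) + B r) ≠ ⊤ := fun r =>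
    ((A.finite_toSet.isBounded.add (bdd r)).measure_lt_top).ne
  have sub : ((A : Set E) + B 1) ∪ R1 ∪ R2 ∪ R3 ⊆ A + B (1 + δ) := by
    rintro w (((a | ⟨a, b, c⟩) | ⟨a, b, c⟩) | ⟨a, b, c⟩)
    · obtain ⟨c, p, q⟩ := mem_U.1 a
      exact mem_U.2 ⟨c, p, by linarith⟩
    · exact F2 (abs_le.2 ⟨by simp at b; linarith, by simp at c; linarith [h_nonneg a]⟩)
    · simp only [t] at b c
      split_ifs at b c with d
      · exact mem_U.2 ⟨((0, 0), 1), by simp [A], by
          rw [abs_of_nonneg (by linarith)]; simp [Prod.mk_zero_zero]; linarith⟩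
      · exact F2 (abs_le.2 ⟨by linarith [h_nonneg a], c.le⟩)
    · refine F2 (abs_le.2 ⟨?_, c.le⟩)
      linarith [h_nonneg (p := w.1) (by simp; linarith [hG _ a])]
  have d1 : Disjoint ((A : Set E) + B 1) R1 := disjoint_left.2 fun w a ⟨b, _, c⟩ => by
    simp at c
    rcases F1 a with e | e
    · linarith [neg_abs_le w.2]
    · linarith [neg_abs_le (w.2 - 1), norm_nonneg w.1, h_nonneg b]
  have d2 : Disjoint ((A : Set E) + B 1 ∪ R1) R2 := disjoint_left.2 fun w a ⟨b, c, _⟩ => by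
    simp only [t] at c
    rcases a with a | ⟨_, _, a⟩
    · rcases F1 a with e | e <;> split_ifs at c with d <;>
        linarith [le_abs_self w.2, le_abs_self (w.2 - 1), abs_nonneg (w.2 - 1), h_le w.1]
    · simp at a
      split_ifs at c with d <;> linarith [h_nonneg b]
  have d3 : Disjoint ((A : Set E) + B 1 ∪ R1 ∪ R2) R3 := disjoint_left.2 fun w a ⟨b, c, d⟩ => by
    obtain ⟨p, q, r⟩ := hG _ b
    rcases a with (a | ⟨s, _, a⟩) | ⟨_, a, _⟩
    · rcases F1 a with e | e <;> linarith [le_abs_self w.2, neg_abs_le (w.2 - 1)]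
    · simp at a
      linarith [h_nonneg s]
    · simp only [t, if_pos r] at a
      linarith
  have := measure_mono (μ := volume) sub
  rw [measure_union d3 m3, measure_union d2 m2, measure_union d1 m1, v1, v2, v3,
    ← ENNReal.ofReal_toReal (fin 1), ← ENNReal.ofReal_toReal (fin (1 + δ))] at this
  simp (disch := positivity) only [sub_zero, sub_neg_eq_add, zero_add, ← ENNReal.ofReal_mul,
    ← ENNReal.ofReal_add] at this
  rw [quot, add_assoc, add_B one_pos h0, EReal.coe_le_coe_iff, le_div_iff₀ h0]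
  rw [ENNReal.ofReal_le_ofReal_iff (by positivity)] at this
  simp only [Measure.real]
  linarith

lemma up {δ : ℝ} (h0 : 0 < δ) (h1 : δ ≤ 1 / 1000) :
    quot (B 1) (B 2) δ ≤ ((321 / 10 : ℝ) : EReal) := by
  have m : Measurable fun p : ℝ × ℝ => max (2 - ‖p‖) 0 := by fun_prop
  obtain ⟨-, v1⟩ := reg m (measurableSet_closedBall (x := 0) (ε := 2 + δ)) (-δ / 1000)
    (δ + δ / 1000)
  obtain ⟨-, v2⟩ := reg m.neg (measurableSet_closedBall (x := 0) (ε := 2 + δ)) (-δ - δ / 1000)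
    (δ / 1000)
  set R1 := Rg _ _ (-δ / 1000) _
  set R2 := Rg _ _ (-δ - δ / 1000) _
  rw [volQ (by positivity)] at v1 v2
  have sub : B (2 + δ) ⊆ B 2 ∪ R1 ∪ R2 := fun w a => by
    change ‖w.1‖ + |w.2| ≤ _ at a
    by_cases b : ‖w.1‖ + |w.2| ≤ 2
    · exact .inl (.inl b)
    have c : w.1 ∈ closedBall (0 : ℝ × ℝ) (2 + δ) := by simp; linarith [abs_nonneg w.2]
    have := le_max_left (2 - ‖w.1‖) 0
    have : max (2 - ‖w.1‖) 0 ≤ |w.2| := max_le (by linarith) (abs_nonneg _)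
    rcases abs_cases w.2 with e | e
    · exact .inl (.inr ⟨c, by linarith, by linarith⟩)
    · exact .inr ⟨c, by simp only [Pi.neg_apply]; linarith, by simp only [Pi.neg_apply]; linarith⟩
  have := (measure_mono (μ := volume) sub).trans ((measure_union_le _ _).trans
    (add_le_add_left (measure_union_le _ _) _))
  rw [v1, v2, ← ENNReal.ofReal_toReal (bdd 2).measure_lt_top.ne,
    ← ENNReal.ofReal_toReal (bdd (2 + δ)).measure_lt_top.ne,
    show δ + δ / 1000 - -δ / 1000 = δ * (501 / 500) by ring,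
    show δ / 1000 - (-δ - δ / 1000) = δ * (501 / 500) by ring] at this
  simp (disch := positivity) only [← ENNReal.ofReal_mul, ← ENNReal.ofReal_add] at this
  rw [quot, add_B two_pos h0, EReal.coe_le_coe_iff, div_le_iff₀ h0]
  rw [ENNReal.ofReal_le_ofReal_iff (by positivity)] at this
  simp only [Measure.real]
  nlinarith [mul_pos h0 h0, mul_le_mul_of_nonneg_left h1 (mul_pos h0 h0).le]

theorem result : ∃ (K : Set E) (A : Finset E), Bornology.IsBounded K ∧ Convex ℝ K ∧ -K = K ∧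
    0 ∈ A ∧ (A : Set E) ⊆ K ∧ upper K ((2 : ℝ) • K) < lower K (A + K) := by
  refine ⟨B 1, A, bdd 1, conv, by ext; simp [B], by simp [A], fun x hx => ?_, ?_⟩
  · simp only [A, Finset.coe_insert, Finset.coe_singleton, mem_insert_iff, mem_singleton_iff] at hx
    rcases hx with rfl | rfl | rfl | rfl | rfl | rfl <;> simp [B]
  rw [smul_B two_pos]
  refine lt_of_le_of_lt (limsup_le_of_le (by isBoundedDefault) ?_) (lt_of_lt_of_le
    (EReal.coe_lt_coe_iff.2 (by norm_num : (321 / 10 : ℝ) < 643 / 20))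
    (le_liminf_of_le (by isBoundedDefault) ?_))
  · filter_upwards [Ioc_mem_nhdsGT (by norm_num : (0 : ℝ) < 1 / 1000)] with δ h using up h.1 h.2
  · filter_upwards [Ioc_mem_nhdsGT (by norm_num : (0 : ℝ) < 1 / 5)] with δ h using low h.1 h.2

end Pool.Agent.Results.MP_a80f1a_gt.Counter
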